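import Mathlib
import Pool.Agent.Helper804.Cut.Main

/-!
A finite uniformly semi-rational group (with the integer `-1`) whose Sylow 3-subgroups are not
semi-rational.
-/

namespace Pool.Agent.Results.MP_a5b85f_al.SylowThree

/-- `H` is semi-rational: for every `x` there is an integer `m` such that every generator of `⟨x⟩`
is conjugate in `H` to `x` or to `x ^ m`. -/
def SemiRational (H : Type) [Group H] : Prop :=
  ∀ x : H, ∃ m : ℤ, ∀ y : H, Subgroup.zpowers y = Subgroup.zpowers x →
    IsConj y x ∨ IsConj y (x ^ m)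

/-- `H` is uniformly semi-rational: one integer `m` serves all `x`. -/
def UniformlySemiRational (H : Type) [Group H] : Prop :=
  ∃ m : ℤ, ∀ x y : H, Subgroup.zpowers y = Subgroup.zpowers x →
    IsConj y x ∨ IsConj y (x ^ m)

theorem semiRational_of_uniformly {H : Type} [Group H] (h : UniformlySemiRational H) :
    SemiRational H := by
  obtain ⟨m, hm⟩ := h
  exact fun x => ⟨m, hm x⟩

/-- in a finite group of odd order only the identity is conjugate to its inverse -/
theorem eq_one_of_isConj_inv {H : Type} [Group H] [Finite H] (hodd : Odd (Nat.card H)) {x : H}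
    (h : IsConj x⁻¹ x) : x = 1 := by
  obtain ⟨c, hc⟩ := isConj_iff.1 h
  -- `c x⁻¹ c⁻¹ = x`
  have h1 : c * x * c⁻¹ = x⁻¹ := by
    have h2 : (c * x⁻¹ * c⁻¹)⁻¹ = x⁻¹ := by rw [hc]
    rw [← h2]
    group
  have h3 : Commute (c ^ 2) x := by
    show c ^ 2 * x = x * c ^ 2
    have h4 : c ^ 2 * x * (c ^ 2)⁻¹ = x := by
      calc c ^ 2 * x * (c ^ 2)⁻¹ = c * (c * x * c⁻¹) * c⁻¹ := by
            rw [pow_two]; simp only [mul_inv_rev, mul_assoc]
        _ = c * x⁻¹ * c⁻¹ := by rw [h1]
        _ = x := hc
    exact mul_inv_eq_iff_eq_mul.1 h4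
  obtain ⟨k, hk⟩ := hodd
  have h5 : c ^ (2 * k + 1) = 1 := by rw [← hk, pow_card_eq_one']
  have h6 : Commute c x := by
    have h7 : (c ^ 2) ^ (k + 1) = c := by
      rw [← pow_mul, show 2 * (k + 1) = 2 * k + 1 + 1 by ring, pow_succ, h5, one_mul]
    rw [← h7]
    exact h3.pow_left _
  have h8 : x⁻¹ = x := by
    rw [← h1, h6.eq, mul_inv_cancel_right]
  have h9 : x ^ 2 = 1 := by
    rw [pow_two]
    nth_rewrite 1 [← h8]
    exact inv_mul_cancel x
  have h10 : x ^ (2 * k + 1) = 1 := by rw [← hk, pow_card_eq_one']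
  rw [pow_succ, pow_mul, h9, one_pow, one_mul] at h10
  exact h10

/-- **Main theorem.** There is a finite group `G` which is uniformly semi-rational (hence
semi-rational) with a Sylow 3-subgroup which is not semi-rational (hence not uniformly
semi-rational). -/
theorem result : ∃ (G : Type) (_ : Group G) (_ : Finite G),
    UniformlySemiRational G ∧ SemiRational G ∧
    ∃ P : Sylow 3 G, ¬ SemiRational (P : Subgroup G) ∧
      ¬ UniformlySemiRational (P : Subgroup G) := by
  have key := Pool.Agent.Helper804.Cut.not_cut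
  push Not at key
  obtain ⟨G, hG, hfin, hcut, P, x, y, hxy, hx, hx'⟩ := key
  have hU : UniformlySemiRational G := ⟨-1, fun x y h => by
    rw [zpow_neg_one]
    exact hcut x y h⟩
  have hP : ¬ SemiRational (P : Subgroup G) := by
    intro hsr
    have hodd : Odd (Nat.card (P : Subgroup G)) := by
      have : Fact (Nat.Prime 3) := ⟨Nat.prime_three⟩
      obtain ⟨n, hn⟩ := IsPGroup.iff_card.1 P.isPGroup'
      rw [hn]
      exact Odd.pow (by decide)
    obtain ⟨m, hm⟩ := hsr x
    rcases hm y hxy with h | h
    · exact hx h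
    · rcases hm x⁻¹ Subgroup.zpowers_inv with h' | h'
      · have h1 := eq_one_of_isConj_inv hodd h'
        apply hx
        have h2 : y = x := by
          have h3 : y ∈ Subgroup.zpowers x := by
            rw [← hxy]
            exact Subgroup.mem_zpowers y
          rw [h1, Subgroup.zpowers_one_eq_bot, Subgroup.mem_bot] at h3
          rw [h3, h1]
        rw [h2]
      · exact hx' (h.trans h'.symm)
  exact ⟨G, hG, hfin, hU, semiRational_of_uniformly hU, P, hP,
    fun h => hP (semiRational_of_uniformly h)⟩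

end Pool.Agent.Results.MP_a5b85f_al.SylowThree
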